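import Pool.Agent.CRT.Stmts

/-!
# Squad CRT, row FAR: the far and almost tangent pairs carry half of the weight
-/

namespace Pool.Agent.CRT.H8

open Finset

theorem dk_bd {T N D : ℝ} (hT : 0 < T) (hN : 0 < N) (hD : N ^ 2 / 10 ^ 6 < D) :
    Real.sqrt (T / N) * dk (T * D / N) ≤ 10 ^ 9 / (T * N ^ 2) := by
  obtain ⟨u, hu⟩ : ∃ u, u = Real.sqrt (T * N) := ⟨_, rfl⟩
  have hTN : 0 < T * N := mul_pos hT hN
  have hu0 : 0 < u := by
    rw [hu]
    exact Real.sqrt_pos.2 hTN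
  have hu2 : u ^ 2 = T * N := by
    rw [hu]
    exact Real.sq_sqrt hTN.le
  have h1 : Real.sqrt (T / N) = u / N := by
    rw [Real.sqrt_eq_iff_mul_self_eq (by positivity) (by positivity)]
    field_simp
    nlinarith [hu2]
  have hx : u ^ 2 / 10 ^ 6 ≤ T * D / N := by
    rw [hu2, le_div_iff₀ hN]
    have : T * N / 10 ^ 6 * N = T * (N ^ 2 / 10 ^ 6) := by ring
    rw [this]
    exact mul_le_mul_of_nonneg_left hD.le hT.le
  have h2 : u / 10 ^ 3 ≤ Real.sqrt (1 + T * D / N) := by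
    apply Real.le_sqrt_of_sq_le
    have : (u / 10 ^ 3) ^ 2 = u ^ 2 / 10 ^ 6 := by ring
    rw [this]
    linarith
  have h3 : dk (T * D / N) ≤ 1 / (u ^ 2 / 10 ^ 6 * (u / 10 ^ 3)) := by
    rw [dk]
    apply one_div_le_one_div_of_le (by positivity)
    exact mul_le_mul (by linarith) h2 (by positivity) (by
      have : 0 ≤ T * D / N := le_trans (by positivity) hx
      linarith)
  rw [h1]
  calc u / N * dk (T * D / N) ≤ u / N * (1 / (u ^ 2 / 10 ^ 6 * (u / 10 ^ 3))) :=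
        mul_le_mul_of_nonneg_left h3 (by positivity)
    _ = 10 ^ 9 / (u ^ 2 * N) := by
        field_simp
    _ = 10 ^ 9 / (T * N ^ 2) := by
        rw [hu2]
        ring_nf

theorem far (nsm : NsmStmt) (ker : KerStmt) : FarStmt := by
  classical
  intro κ m c hκ hm hc
  obtain ⟨C₁, hC₁, h1⟩ := nsm κ m hκ hm
  obtain ⟨C₂, hC₂, h2⟩ := ker κ hκ
  refine ⟨4 * C₁ / c, 1 + 4 * 10 ^ 9 * C₂ / c, by positivity, ?_, ?_⟩
  · have : 0 ≤ 4 * 10 ^ 9 * C₂ / c := by positivity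
    linarith
  intro τ hτ Q P hF hQ s hs i hsum
  have hτ1 : 1 ≤ τ := by
    have : 0 ≤ 4 * 10 ^ 9 * C₂ / c := by positivity
    linarith
  have hτ0 : 0 < τ := by linarith
  have hT : 1 ≤ τ ^ 10 := one_le_pow₀ hτ1
  have hc0 : (0 : ℝ) ≤ Q.card := Nat.cast_nonneg _
  obtain ⟨A, hA⟩ : ∃ A, A = Q.filter (fun s' => τ ^ 4 * Nm (P s - P s') < 1) := ⟨_, rfl⟩
  have hAs : ∑ s' ∈ A, |wt i κ (τ ^ 10) (P s - P s')| ≤ c / 4 * Q.card := by
    have h3 := h1 τ hτ1 Q P hF s hs i A (by rw [hA]; exact filter_subset _ _) (fun s' hs' => by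
      rw [hA] at hs'
      exact (mem_filter.1 hs').2)
    have h4 : C₁ * τ ^ 19 = c / 4 * (4 * C₁ / c * τ ^ 19) := by
      field_simp
    rw [h4] at h3
    exact h3.trans (mul_le_mul_of_nonneg_left hQ (by positivity))
  have hB : ∀ s' ∈ Q, ¬ Far i κ τ (P s - P s') → ¬ τ ^ 4 * Nm (P s - P s') < 1 →
      |wt i κ (τ ^ 10) (P s - P s')| ≤ c / 4 := by
    intro s' hs' hf hn
    rw [not_lt] at hn
    by_cases hw : wt i κ (τ ^ 10) (P s - P s') = 0
    · rw [hw, abs_zero]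
      positivity
    · have hD : Nm (P s - P s') ^ 2 / 10 ^ 6 < |Dc (P s - P s')| := by
        by_contra h
        exact hf ⟨hn, not_lt.1 h, hw⟩
      have hN : 0 < Nm (P s - P s') := by
        by_contra h
        have : τ ^ 4 * Nm (P s - P s') ≤ 0 :=
          mul_nonpos_of_nonneg_of_nonpos (by positivity) (not_lt.1 h)
        linarith
      have h3 := (h2 (τ ^ 10) hT i (P s - P s')).2 hN
      have h4 := dk_bd (T := τ ^ 10) (by positivity) hN hD
      have h5 : τ ^ 2 ≤ τ ^ 10 * Nm (P s - P s') ^ 2 := by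
        have e1 : 1 ≤ (τ ^ 4 * Nm (P s - P s')) ^ 2 := one_le_pow₀ hn
        have e2 : τ ^ 10 * Nm (P s - P s') ^ 2 = τ ^ 2 * (τ ^ 4 * Nm (P s - P s')) ^ 2 := by ring
        rw [e2]
        nlinarith [sq_nonneg τ]
      have h6 : 10 ^ 9 / (τ ^ 10 * Nm (P s - P s') ^ 2) ≤ 10 ^ 9 / τ ^ 2 :=
        div_le_div_of_nonneg_left (by norm_num) (by positivity) h5
      have h7 : C₂ * (10 ^ 9 / τ ^ 2) ≤ c / 4 := by
        rw [← mul_div_assoc, div_le_iff₀ (by positivity)]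
        have e3 : 4 * 10 ^ 9 * C₂ / c ≤ τ := by linarith
        rw [div_le_iff₀ hc] at e3
        have e4 : τ ≤ τ ^ 2 := by nlinarith
        nlinarith [mul_le_mul_of_nonneg_left e4 hc.le]
      calc |wt i κ (τ ^ 10) (P s - P s')| ≤ _ := h3
        _ ≤ C₂ * (10 ^ 9 / τ ^ 2) := mul_le_mul_of_nonneg_left (h4.trans h6) hC₂.le
        _ ≤ c / 4 := h7
  refine ⟨Q.filter (fun s' => Far i κ τ (P s - P s')), filter_subset _ _, fun s' hs' =>
    (mem_filter.1 hs').2, ?_⟩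
  have h3 : ∑ s' ∈ Q.filter (fun s' => ¬ Far i κ τ (P s - P s')), |wt i κ (τ ^ 10) (P s - P s')| ≤
      c / 2 * Q.card := by
    rw [← sum_filter_add_sum_filter_not _ (fun s' => τ ^ 4 * Nm (P s - P s') < 1)]
    have h4 : ∑ s' ∈ (Q.filter (fun s' => ¬ Far i κ τ (P s - P s'))).filter
        (fun s' => τ ^ 4 * Nm (P s - P s') < 1), |wt i κ (τ ^ 10) (P s - P s')| ≤
        c / 4 * Q.card := by
      refine (sum_le_sum_of_subset_of_nonneg ?_ fun _ _ _ => abs_nonneg _).trans hAs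
      intro s' hs'
      rw [hA]
      rw [mem_filter, mem_filter] at hs'
      exact mem_filter.2 ⟨hs'.1.1, hs'.2⟩
    have h5 : ∑ s' ∈ (Q.filter (fun s' => ¬ Far i κ τ (P s - P s'))).filter
        (fun s' => ¬ τ ^ 4 * Nm (P s - P s') < 1), |wt i κ (τ ^ 10) (P s - P s')| ≤
        c / 4 * Q.card := by
      have h6 := sum_le_card_nsmul ((Q.filter (fun s' => ¬ Far i κ τ (P s - P s'))).filter
        (fun s' => ¬ τ ^ 4 * Nm (P s - P s') < 1)) (fun s' => |wt i κ (τ ^ 10) (P s - P s')|)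
        (c / 4) (fun s' hs' => by
          rw [mem_filter, mem_filter] at hs'
          exact hB s' hs'.1.1 hs'.1.2 hs'.2)
      refine h6.trans ?_
      rw [nsmul_eq_mul, mul_comm]
      refine mul_le_mul_of_nonneg_left ?_ (by positivity)
      exact_mod_cast card_le_card ((filter_subset _ _).trans (filter_subset _ _))
    linarith
  have h4 := sum_filter_add_sum_filter_not Q (fun s' => Far i κ τ (P s - P s'))
    (fun s' => |wt i κ (τ ^ 10) (P s - P s')|)
  linarith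

end Pool.Agent.CRT.H8
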