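import Pool.Agent.CRT.Stmts

/-!
# Squad CRT, row TRI: three null directions are independent
-/

namespace Pool.Agent.CRT.H8

theorem tri : TriStmt := by
  intro z v ξ η hξ hη h
  obtain ⟨N, hN⟩ : ∃ N, N = Nm z := ⟨_, rfl⟩
  have hz0 : |z.1| ≤ N := hN ▸ le_max_left _ _
  have hz1 : |z.2.1| ≤ N := hN ▸ (le_max_left _ _).trans (le_max_right _ _)
  have hz2 : |z.2.2| ≤ N := hN ▸ (le_max_right _ _).trans (le_max_right _ _)
  rw [← hN] at h ⊢
  have key : ∀ i, |z.1 + ce i * z.2.1 + ce i ^ 2 * z.2.2| ≤ v + N / 1000 + N / 30 := by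
    intro i
    have h1 : |(ce i - ξ i) * z.2.1| ≤ 1 / 60 * N := by
      rw [abs_mul, abs_sub_comm]
      exact mul_le_mul (hξ i) hz1 (abs_nonneg _) (by norm_num)
    have h2 : |(ce i ^ 2 - η i) * z.2.2| ≤ 1 / 60 * N := by
      rw [abs_mul, abs_sub_comm]
      exact mul_le_mul (hη i) hz2 (abs_nonneg _) (by norm_num)
    have h3 : z.1 + ce i * z.2.1 + ce i ^ 2 * z.2.2 = (z.1 + ξ i * z.2.1 + η i * z.2.2) +
        (ce i - ξ i) * z.2.1 + (ce i ^ 2 - η i) * z.2.2 := by ring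
    rw [h3]
    have h4 := abs_add_three (z.1 + ξ i * z.2.1 + η i * z.2.2) ((ce i - ξ i) * z.2.1)
      ((ce i ^ 2 - η i) * z.2.2)
    have h5 := h i
    linarith
  have k0 := key 0
  have k1 := key 1
  have k2 := key 2
  have c0 : ce 0 = -1 / 2 := by norm_num [ce]
  have c1 : ce 1 = 0 := by norm_num [ce]
  have c2 : ce 2 = 1 / 2 := by
    show (((2 : ℕ) : ℝ) - 1) / 2 = 1 / 2
    norm_num
  rw [c0] at k0
  rw [c1] at k1
  rw [c2] at k2
  rw [abs_le] at k0 k1 k2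
  have e : N ≤ 8 * (v + N / 1000 + N / 30) := by
    rw [hN] at k0 k1 k2 ⊢
    refine max_le ?_ (max_le ?_ ?_) <;> rw [abs_le] <;> constructor <;> linarith [k0.1, k0.2, k1.1, k1.2, k2.1, k2.2]
  have hN0 : 0 ≤ N := (abs_nonneg _).trans hz0
  linarith

end Pool.Agent.CRT.H8
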