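import Pool.Agent.CRT.Stmts

/-!
# Squad CRT, row POL: null sets of directions
-/

namespace Pool.Agent.CRT.H8

open Set MeasureTheory

theorem pol : PolStmt := by
  intro g N hN
  obtain ⟨A, hA⟩ : ∃ A : Set ℝ, A = {θ | 0 < (g.symm (dir θ)).1 ∧ θ ∈ N} := ⟨_, rfl⟩
  have hw : Differentiable ℝ (fun θ : ℝ => g.symm (dir θ)) := by
    refine g.symm.differentiable.comp ?_
    exact Real.differentiable_cos.prodMk Real.differentiable_sin
  have hd : DifferentiableOn ℝ (fun θ : ℝ => (g.symm (dir θ)).2 / (g.symm (dir θ)).1) A := by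
    intro θ hθ
    rw [hA] at hθ
    exact ((hw θ).snd.div (hw θ).fst hθ.1.ne').differentiableWithinAt
  have h0 : volume A = 0 := measure_mono_null (fun θ hθ => by
    rw [hA] at hθ
    exact hθ.2) hN
  have h1 := addHaar_image_eq_zero_of_differentiableOn_of_addHaar_eq_zero volume hd h0
  rw [ae_iff]
  refine measure_mono_null ?_ h1
  intro x hx
  simp only [mem_setOf_eq, not_forall, not_not] at hx
  obtain ⟨θ, l, hl, hθ, hN'⟩ := hx
  have h2 : g.symm (dir θ) = l • ((1 : ℝ), x) := by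
    rw [hθ, map_smul, ContinuousLinearEquiv.symm_apply_apply]
  have h3 : (g.symm (dir θ)).1 = l := by
    rw [h2]
    simp
  have h4 : (g.symm (dir θ)).2 = l * x := by
    rw [h2]
    simp
  refine ⟨θ, ?_, ?_⟩
  · rw [hA]
    exact ⟨by rw [h3]; exact hl, hN'⟩
  · show (g.symm (dir θ)).2 / (g.symm (dir θ)).1 = x
    rw [h3, h4, mul_div_cancel_left₀ _ hl.ne']

end Pool.Agent.CRT.H8
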